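import Mathlib

set_option autoImplicit false

namespace Pool.Agent.Results.MP_9bc523_co.Asym

open Filter

def IsSol {l k : ℕ} (A : Matrix (Fin l) (Fin k) ℤ) (c : Fin l → ℤ) (x : Fin k → ℕ) : Prop :=
  Function.Injective x ∧ (∀ j, 1 ≤ x j) ∧ A.mulVec (fun j => (x j : ℤ)) = c

lemma sol_iff (b : ℤ) (x : Fin 2 → ℕ) :
    IsSol !![1, -2] ![b] x ↔ x 0 ≠ x 1 ∧ 1 ≤ x 0 ∧ 1 ≤ x 1 ∧ (x 0 : ℤ) = 2 * x 1 + b := by
  unfold IsSol
  rw [Fin.forall_fin_two, funext_iff, Fin.forall_fin_one]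
  have h1 : Function.Injective x ↔ x 0 ≠ x 1 := by
    constructor
    · intro h e
      exact absurd (h e) (by decide)
    · intro h i j e
      fin_cases i <;> fin_cases j <;> simp_all
  rw [h1]
  simp only [Matrix.mulVec, dotProduct, Fin.sum_univ_two, Matrix.of_apply, Matrix.cons_val',
    Matrix.cons_val_zero, Matrix.cons_val_one, Matrix.cons_val_fin_one]
  constructor
  · rintro ⟨h1, ⟨h2, h3⟩, h4⟩
    exact ⟨h1, h2, h3, by linarith⟩
  · rintro ⟨h1, h2, h3, h4⟩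
    exact ⟨h1, ⟨h2, h3⟩, by linarith⟩

lemma log_case (y : ℕ) (hy : 1 ≤ y) :
    Nat.log 2 (2 * y + 2) = Nat.log 2 y + 1 ∨ y + 1 = 2 ^ (Nat.log 2 y + 1) := by
  have h1 := Nat.pow_log_le_self 2 (x := y) (by omega)
  have h2 := Nat.lt_pow_succ_log_self (b := 2) (by norm_num) y
  by_cases h : y + 1 = 2 ^ (Nat.log 2 y + 1)
  · exact Or.inr h
  · left
    rw [Nat.log_eq_iff (by right; constructor <;> omega)]
    simp only [Nat.succ_eq_add_one, pow_succ] at *
    omega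

lemma small (ε : ℝ) (hε : 0 < ε) : ∃ n0 : ℕ, ∀ n ≥ n0, ((Nat.log 2 n + 1 : ℕ) : ℝ) < ε * n := by
  obtain ⟨m, hm⟩ := exists_nat_gt (1 / ε)
  refine ⟨2 ^ (4 * m + 4), fun n hn => ?_⟩
  have hp : 0 < 2 ^ (4 * m + 4) := by positivity
  have h1 : 4 * m + 4 ≤ Nat.log 2 n := Nat.le_log_of_pow_le (by norm_num) hn
  have h2 := Nat.pow_log_le_self 2 (x := n) (by omega)
  generalize Nat.log 2 n = L at h1 h2
  have h3 : ∀ t : ℕ, (t + 4) ^ 2 ≤ 2 ^ (t + 4) := by
    intro t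
    induction t with
    | zero => norm_num
    | succ t ih =>
      rw [show t + 1 + 4 = t + 4 + 1 from rfl, pow_succ 2 (t + 4)]
      nlinarith [Nat.zero_le t, Nat.zero_le (t ^ 2)]
  have h4 := h3 (L - 4)
  rw [show L - 4 + 4 = L by omega] at h4
  have h5 : m * (L + 1) ≤ n := by nlinarith
  have h6 : (m : ℝ) * ((L + 1 : ℕ) : ℝ) ≤ n := by exact_mod_cast h5
  have h7 : 1 < ε * m := by rwa [div_lt_iff₀ hε, mul_comm] at hm
  have h8 : (0 : ℝ) < ((L + 1 : ℕ) : ℝ) := by positivity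
  nlinarith

theorem result :
    ∃ (r : ℕ) (l k : Fin r → ℕ) (A : ∀ i, Matrix (Fin (l i)) (Fin (k i)) ℤ)
      (c : ∀ i, Fin (l i) → ℤ),
      0 < r ∧ (∀ i, l i < k i ∧ ((A i).map (Int.cast : ℤ → ℚ)).rank = l i) ∧
      (∀ i, ∃ x, IsSol (A i) (c i) x) ∧ (∀ i, ∃ x, IsSol (A i) 0 x) ∧
      (∀ χ : ℕ → Fin r, ∃ i x, IsSol (A i) (c i) x ∧ ∀ j, χ (x j) = i) ∧
      ∀ ε : ℝ, 0 < ε → ∃ n0 : ℕ, ∀ n ≥ n0, ∃ χ : ℕ → Fin r, ∀ i,
        ({x | IsSol (A i) (c i) x ∧ ∀ j, x j ≤ n ∧ χ (x j) = i}.ncard : ℝ) <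
          ε * (n : ℝ) ^ (k i - l i) := by
  refine ⟨2, fun _ => 1, fun _ => 2, fun _ => !![1, -2], fun i => ![2 * i.val], by norm_num,
    fun _ => ⟨by norm_num, ?_⟩, ?_, ?_, ?_, ?_⟩
  · have := LinearIndependent.rank_matrix (M := (!![1, -2] : Matrix (Fin 1) (Fin 2) ℤ).map
      (Int.cast : ℤ → ℚ)) (by
        rw [linearIndependent_unique_iff]
        intro h
        have := congrFun h 0
        simp [Matrix.row] at this)
    simpa using this
  · intro i
    exact ⟨![2 + 2 * i.val, 1], (sol_iff _ _).mpr (by simp; omega)⟩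
  · intro i
    have : (0 : Fin 1 → ℤ) = ![0] := by funext j; fin_cases j; rfl
    rw [this]
    exact ⟨![2, 1], (sol_iff _ _).mpr (by simp)⟩
  · intro χ
    by_contra hn
    push Not at hn
    have hf : ∀ y : ℕ, 1 ≤ y → χ (2 * y) = 1 ∨ χ y = 1 := by
      intro y hy
      obtain ⟨j, hj⟩ := hn 0 ![2 * y, y] ((sol_iff _ _).mpr (by simp; omega))
      fin_cases j
      · left; simp at hj; omega
      · right; simp at hj; omega
    have hg : ∀ y : ℕ, 1 ≤ y → χ (2 * y + 2) = 0 ∨ χ y = 0 := by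
      intro y hy
      obtain ⟨j, hj⟩ := hn 1 ![2 * y + 2, y] ((sol_iff _ _).mpr (by simp; omega))
      fin_cases j
      · left; simp at hj; omega
      · right; simp at hj; omega
    have f1 := hf 1; have f2 := hf 2; have f3 := hf 3; have f4 := hf 4; have f5 := hf 5
    have f6 := hf 6
    have g1 := hg 1; have g2 := hg 2; have g3 := hg 3; have g4 := hg 4; have g5 := hg 5
    norm_num at f1 f2 f3 f4 f5 f6 g1 g2 g3 g4 g5
    omega
  · intro ε hε
    obtain ⟨n0, h0⟩ := small ε hε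
    refine ⟨n0, fun n hn => ⟨fun y => Fin.ofNat 2 (Nat.log 2 y), fun i => ?_⟩⟩
    refine lt_of_le_of_lt ?_ ((h0 n hn).trans_eq (by simp))
    have hsub : {x : Fin 2 → ℕ | IsSol !![1, -2] ![2 * i.val] x ∧
        ∀ j, x j ≤ n ∧ Fin.ofNat 2 (Nat.log 2 (x j)) = i} ⊆
        (fun t => ![2 ^ (t + 2), 2 ^ (t + 1) - 1]) '' ↑(Finset.range (Nat.log 2 n + 1)) := by
      rintro x ⟨hs, hx⟩
      obtain ⟨h1, h2, h3, h4⟩ := (sol_iff _ _).mp hs
      have e : Nat.log 2 (x 0) % 2 = Nat.log 2 (x 1) % 2 :=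
        congrArg Fin.val ((hx 0).2.trans (hx 1).2.symm)
      have hl : Nat.log 2 (x 1) ≤ Nat.log 2 n := Nat.log_mono_right (hx 1).1
      fin_cases i
      · have : x 0 = x 1 * 2 := by simp at h4; omega
        rw [this, Nat.log_mul_base (by norm_num) (by omega)] at e
        omega
      · have h5 : x 0 = 2 * x 1 + 2 := by simp at h4; omega
        rcases log_case (x 1) h3 with h | h
        · rw [h5, h] at e
          omega
        · refine ⟨Nat.log 2 (x 1), by simp; omega, ?_⟩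
          funext j
          fin_cases j
          · simp only [Fin.zero_eta, Matrix.cons_val_zero, pow_succ] at h ⊢
            omega
          · simp only [Fin.mk_one, Matrix.cons_val_one, Matrix.cons_val_zero]
            omega
    have := (Set.ncard_le_ncard hsub (Set.toFinite _)).trans (Set.ncard_image_le (Set.toFinite _))
    rw [Set.ncard_coe_finset, Finset.card_range] at this
    exact_mod_cast this

end Pool.Agent.Results.MP_9bc523_co.Asym
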